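import Pool.Agent.W307.FK.Stm
import Pool.Agent.W839.RS.CNT2S
import Pool.Agent.W571.RT.Rank2

/-!
# Project FK, part CNTF: coprime pairs in a short square with given small prime factors and signs

Adapted from `Pool.Agent.W839.RS.CNT2S`.
-/

set_option autoImplicit false
set_option linter.unusedSectionVars false

namespace Pool.Agent.W293.FK.Cntf

open Finset Pool.Agent.W262.RK Pool.Agent.W307.RT Pool.Agent.W307.RS Pool.Agent.W307.FK
open Pool.Agent.W372.RK2 (sq_pow_dvd mj mj_primes prod_gw)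
open Pool.Agent.W29.RT (dvd_S1 dvd_S2 G2 c0 mj_eq cong prod_pr)
open Pool.Agent.W839.RS (un_ofZ one_le_mul_gw)

/-- half of the residues -/
lemma half {p : ℕ} (hp : p.Prime) (hp2 : p ≠ 2) (ε : ℤ) (hε : ε = 1 ∨ ε = -1) :
    2 * ((range p).filter (fun a : ℕ => jacobiSym (a : ℤ) p = ε)).card ≤ p := by
  have : Fact p.Prime := ⟨hp⟩
  have h1 : ∑ a ∈ range p, jacobiSym (a : ℤ) p = 0 := by
    have h2 : ∑ a ∈ range p, jacobiSym (a : ℤ) p = ∑ a : ZMod p, quadraticChar (ZMod p) a := by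
      refine sum_nbij' (fun a => (a : ZMod p)) ZMod.val (fun _ _ => mem_univ _)
        (fun a _ => mem_range.2 (ZMod.val_lt a)) (fun a ha => ZMod.val_cast_of_lt (mem_range.1 ha))
        (fun a _ => ZMod.natCast_zmod_val a) ?_
      intro a _
      rw [← jacobiSym.legendreSym.to_jacobiSym]
      unfold legendreSym
      norm_cast
    rw [h2]
    apply quadraticChar_sum_zero
    rw [ZMod.ringChar_zmod_n]
    exact hp2
  have h3 : ∀ a ∈ range p, jacobiSym (a : ℤ) p =
      (if jacobiSym (a : ℤ) p = 1 then 1 else 0) - (if jacobiSym (a : ℤ) p = -1 then 1 else 0) := by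
    intro a _
    rcases jacobiSym.trichotomy (a : ℤ) p with h | h | h <;> rw [h] <;> norm_num
  rw [sum_congr rfl h3, sum_sub_distrib, sum_boole, sum_boole] at h1
  have h4 : ((range p).filter (fun a : ℕ => jacobiSym (a : ℤ) p = 1)).card +
      ((range p).filter (fun a : ℕ => jacobiSym (a : ℤ) p = -1)).card ≤ p := by
    rw [← card_union_of_disjoint]
    · refine (card_le_card (union_subset (filter_subset _ _) (filter_subset _ _))).trans ?_
      rw [card_range]
    · rw [disjoint_left]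
      intro a ha hb
      rw [mem_filter] at ha hb
      rw [ha.2] at hb
      exact absurd hb.2 (by norm_num)
  rcases hε with rfl | rfl <;> omega

/-- residues modulo a squarefree number -/
lemma res_card {ms : ℕ} (hsq : Squarefree ms) (H : ℕ → Finset ℕ) :
    ((range ms).filter (fun r => ∀ p ∈ ms.primeFactors, r % p ∈ H p)).card ≤
      ∏ p ∈ ms.primeFactors, (H p).card := by
  rw [← Finset.card_pi]
  apply card_le_card_of_injOn (fun r p _ => r % p)
  · intro r hr
    rw [mem_coe, mem_filter] at hr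
    rw [mem_coe, mem_pi]
    exact hr.2
  · intro r hr r' hr' h
    rw [mem_coe, mem_filter, mem_range] at hr hr'
    have h1 : ∀ p ∈ ms.primeFactors, p ∣ ((r : ℤ) - r').natAbs := by
      intro p hp
      have h2 : r % p = r' % p := congrFun (congrFun h p) hp
      have h3 : r' ≡ r [MOD p] := h2.symm
      exact Int.natCast_dvd.1 (Nat.modEq_iff_dvd.1 h3)
    have h4 : ms ∣ ((r : ℤ) - r').natAbs := by
      have h5 := prod_primes_dvd ((r : ℤ) - r').natAbs
        (fun p hp => (Nat.prime_of_mem_primeFactors hp).prime) h1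
      rwa [Nat.prod_primeFactors_of_squarefree hsq] at h5
    by_contra hne
    have h6 := Nat.le_of_dvd (by omega) h4
    omega

/-- the number of the good residues -/
lemma res_bound {ms : ℕ} (hsq : Squarefree ms) (hodd : ∀ p ∈ ms.primeFactors, p ≠ 2) (D : ℤ)
    (hD : D ≠ 0) (ε : ℕ → ℤ) (hε : ∀ p, ε p = 1 ∨ ε p = -1) :
    (((range ms).filter (fun r => ∀ p ∈ ms.primeFactors, r % p ∈
      (range p).filter (fun a : ℕ => ¬ p ∣ D.natAbs → jacobiSym (a : ℤ) p = ε p))).card : ℝ) ≤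
      ms * (1 / 2) ^ ms.primeFactors.card * 2 ^ D.natAbs.primeFactors.card := by
  have h1 := res_card hsq (fun p =>
    (range p).filter (fun a : ℕ => ¬ p ∣ D.natAbs → jacobiSym (a : ℤ) p = ε p))
  have h2 : ∀ p ∈ ms.primeFactors, (((range p).filter
      (fun a : ℕ => ¬ p ∣ D.natAbs → jacobiSym (a : ℤ) p = ε p)).card : ℝ) ≤
      p * (1 / 2) * (if p ∣ D.natAbs then 2 else 1) := by
    intro p hp
    by_cases hpD : p ∣ D.natAbs
    · rw [if_pos hpD]
      have := card_filter_le (range p) (fun a : ℕ => ¬ p ∣ D.natAbs → jacobiSym (a : ℤ) p = ε p)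
      rw [card_range] at this
      have h3 : (((range p).filter
        (fun a : ℕ => ¬ p ∣ D.natAbs → jacobiSym (a : ℤ) p = ε p)).card : ℝ) ≤ p := by
        exact_mod_cast this
      linarith
    · rw [if_neg hpD]
      have h3 := half (Nat.prime_of_mem_primeFactors hp) (hodd p hp) (ε p) (hε p)
      have h4 : ((range p).filter (fun a : ℕ => ¬ p ∣ D.natAbs → jacobiSym (a : ℤ) p = ε p)) =
          (range p).filter (fun a : ℕ => jacobiSym (a : ℤ) p = ε p) :=
        filter_congr fun a _ => ⟨fun h => h hpD, fun h _ => h⟩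
      rw [h4]
      have h5 : (2 : ℝ) * (((range p).filter
        (fun a : ℕ => jacobiSym (a : ℤ) p = ε p)).card : ℝ) ≤ p := by
        exact_mod_cast h3
      linarith
  have h3 : ∏ p ∈ ms.primeFactors, ((p : ℝ) * (1 / 2) * (if p ∣ D.natAbs then 2 else 1)) =
      ms * (1 / 2) ^ ms.primeFactors.card *
        2 ^ (ms.primeFactors.filter (fun p => p ∣ D.natAbs)).card := by
    rw [prod_mul_distrib, prod_mul_distrib, prod_const, prod_ite, prod_const, prod_const_one,
      mul_one, ← Nat.cast_prod, Nat.prod_primeFactors_of_squarefree hsq]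
  have h4 : (ms.primeFactors.filter (fun p => p ∣ D.natAbs)).card ≤
      D.natAbs.primeFactors.card := by
    apply card_le_card
    intro p hp
    rw [mem_filter] at hp
    exact Nat.mem_primeFactors.2 ⟨Nat.prime_of_mem_primeFactors hp.1, hp.2,
      Int.natAbs_ne_zero.2 hD⟩
  calc _ ≤ ((∏ p ∈ ms.primeFactors, ((range p).filter
      (fun a : ℕ => ¬ p ∣ D.natAbs → jacobiSym (a : ℤ) p = ε p)).card : ℕ) : ℝ) := by
        exact_mod_cast h1
    _ ≤ ∏ p ∈ ms.primeFactors, ((p : ℝ) * (1 / 2) * (if p ∣ D.natAbs then 2 else 1)) := by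
        rw [Nat.cast_prod]
        exact prod_le_prod (fun _ _ => Nat.cast_nonneg _) h2
    _ ≤ _ := by
        rw [h3]
        apply mul_le_mul_of_nonneg_left _ (by positivity)
        exact pow_le_pow_right₀ (by norm_num) h4

/-- the sum over the second variables with good signs -/
lemma good_sum {c z B : ℕ} {CA : ℝ} (hCA : 0 ≤ CA)
    (hav : ∀ (N r : ℤ) (X m : ℕ), 1 ≤ X → N.natAbs ≤ X ^ B → 1 ≤ m → m ^ 4 ≤ X →
      ∑ v ∈ (Icc 1 X).filter (fun v : ℕ => (m : ℤ) ∣ N + (v : ℤ) - r),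
        ∏ p ∈ (N + (v : ℤ)).natAbs.primeFactors.filter (fun p => z < p ∧ ¬ p ∣ m),
          (p : ℝ) / ((p : ℝ) - c) ≤ CA * (X / m)) (hcz : c ≤ z)
    (N : ℤ) (X ms : ℕ) (hX : 1 ≤ X) (hN : N.natAbs ≤ X ^ B) (hms : ms ^ 4 ≤ X)
    (hsq : Squarefree ms) (hodd : ∀ p ∈ ms.primeFactors, p ≠ 2) (D : ℤ)
    (hD : D ≠ 0) (ε : ℕ → ℤ) (hε : ∀ p, ε p = 1 ∨ ε p = -1) (S : Finset ℕ) (hS : S ⊆ Icc 1 X)
    (hgood : ∀ w ∈ S, ∀ p ∈ ms.primeFactors, ¬ (p : ℤ) ∣ N + (w : ℤ) ∧
      (¬ p ∣ D.natAbs → jacobiSym (N + (w : ℤ)) p = ε p)) :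
    ∑ w ∈ S, ∏ p ∈ (N + (w : ℤ)).natAbs.primeFactors.filter (fun p => z < p),
      (p : ℝ) / ((p : ℝ) - c) ≤
      CA * X * (1 / 2) ^ ms.primeFactors.card * 2 ^ D.natAbs.primeFactors.card := by
  have hms0 : ms ≠ 0 := hsq.ne_zero
  have hms1 : 1 ≤ ms := Nat.one_le_iff_ne_zero.2 hms0
  have hg1 : ∀ p : ℕ, z < p → 0 ≤ (p : ℝ) / ((p : ℝ) - c) := by
    intro p hp
    have h1 : (c : ℝ) < p := by exact_mod_cast lt_of_le_of_lt hcz hp
    exact div_nonneg (Nat.cast_nonneg _) (by linarith)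
  obtain ⟨R, hR⟩ : ∃ R, R = (range ms).filter (fun r => ∀ p ∈ ms.primeFactors, r % p ∈
      (range p).filter (fun a : ℕ => ¬ p ∣ D.natAbs → jacobiSym (a : ℤ) p = ε p)) := ⟨_, rfl⟩
  have hφ : ∀ w : ℕ, ((((N + (w : ℤ)) % ms).toNat : ℕ) : ℤ) = (N + (w : ℤ)) % ms := fun w =>
    Int.toNat_of_nonneg (Int.emod_nonneg _ (by exact_mod_cast hms0))
  have hmaps : ∀ w ∈ S, ((N + (w : ℤ)) % ms).toNat ∈ R := by
    intro w hw
    rw [hR, mem_filter, mem_range]
    refine ⟨?_, fun p hp => ?_⟩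
    · have := Int.emod_lt_of_pos (N + (w : ℤ)) (by exact_mod_cast hms1 : (0 : ℤ) < ms)
      have h2 := hφ w
      omega
    · have hpp := Nat.prime_of_mem_primeFactors hp
      rw [mem_filter, mem_range]
      refine ⟨Nat.mod_lt _ hpp.pos, fun hpD => ?_⟩
      have h3 : (((((N + (w : ℤ)) % ms).toNat % p : ℕ) : ℕ) : ℤ) = (N + (w : ℤ)) % p := by
        rw [Int.natCast_mod, hφ]
        exact Int.emod_emod_of_dvd _ (by exact_mod_cast Nat.dvd_of_mem_primeFactors hp)
      rw [h3, ← jacobiSym.mod_left]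
      exact (hgood w hw p hp).2 hpD
  rw [← sum_fiberwise_of_maps_to hmaps]
  have hone : ∀ r ∈ R, ∑ w ∈ S.filter (fun w : ℕ => ((N + (w : ℤ)) % ms).toNat = r),
      ∏ p ∈ (N + (w : ℤ)).natAbs.primeFactors.filter (fun p => z < p),
        (p : ℝ) / ((p : ℝ) - c) ≤ CA * (X / ms) := by
    intro r _
    refine le_trans ?_ (hav N r X ms hX hN hms1 hms)
    have hsub : S.filter (fun w : ℕ => ((N + (w : ℤ)) % ms).toNat = r) ⊆
        (Icc 1 X).filter (fun v : ℕ => (ms : ℤ) ∣ N + (v : ℤ) - r) := by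
      intro w hw
      rw [mem_filter] at hw ⊢
      refine ⟨hS hw.1, ?_⟩
      rw [← hw.2, hφ]
      exact Int.dvd_self_sub_emod
    refine le_trans (le_of_eq (sum_congr rfl fun w hw => ?_))
      (sum_le_sum_of_subset_of_nonneg hsub fun w _ _ => prod_nonneg fun p hp =>
        hg1 p (mem_filter.1 hp).2.1)
    apply prod_congr _ (fun _ _ => rfl)
    apply filter_congr
    intro p hp
    refine ⟨fun h => ⟨h, fun hpm => ?_⟩, fun h => h.1⟩
    have hpp := Nat.prime_of_mem_primeFactors hp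
    exact (hgood w (mem_filter.1 hw).1 p (Nat.mem_primeFactors.2 ⟨hpp, hpm, hms0⟩)).1
      (Int.natCast_dvd.2 (Nat.dvd_of_mem_primeFactors hp))
  refine (sum_le_sum hone).trans ?_
  rw [sum_const, nsmul_eq_mul]
  have hRb := res_bound hsq hodd D hD ε hε
  rw [← hR] at hRb
  have hmsR : (0 : ℝ) < ms := by exact_mod_cast hms1
  calc (R.card : ℝ) * (CA * (X / ms))
      ≤ (ms * (1 / 2) ^ ms.primeFactors.card * 2 ^ D.natAbs.primeFactors.card) *
        (CA * (X / ms)) := mul_le_mul_of_nonneg_right hRb (by positivity)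
    _ = _ := by
        field_simp

/-- the large primes are good for the three forms -/
lemma bgF {z : ℕ} (hz : 2 * Fintype.card (Fin 3) + 2 ≤ z) : Bg αF βF z := by
  rw [Fintype.card_fin] at hz
  refine ⟨by rw [Fintype.card_fin]; exact hz, fun p hp hzp => ⟨?_, ?_⟩⟩
  · intro j hj
    have h1 : (p : ℤ) ∣ 2 := by
      have h2 : αF j ∣ 2 := by
        clear hj
        revert j
        decide
      exact hj.trans h2
    have h3 : p ∣ 2 := by exact_mod_cast h1
    have := Nat.le_of_dvd (by norm_num) h3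
    omega
  · intro j l hjl hd
    have h1 : (p : ℤ) ∣ 1 := by
      have h2 : Res αF βF j l ∣ 1 := by
        clear hd
        revert j l
        decide
      exact hd.trans h2
    have h3 : p ∣ 1 := by exact_mod_cast h1
    have := Nat.le_of_dvd (by norm_num) h3
    omega

lemma jac_pm {p : ℕ} (hp : p.Prime) {x : ℤ} (hx : ¬ (p : ℤ) ∣ x) :
    jacobiSym x p = 1 ∨ jacobiSym x p = -1 := by
  apply jacobiSym.eq_one_or_neg_one
  rw [← Int.isCoprime_iff_gcd_eq_one]
  exact IsCoprime.symm ((Prime.coprime_iff_not_dvd (Nat.prime_iff_prime_int.1 hp)).2 hx)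

/-- the sign is determined by the second variable -/
lemma sign_eq {z y : ℕ} {D U V : ℤ} (hB : Bg αF βF z) (hUV : IsCoprime U V) {p : ℕ}
    (hp : p.Prime) {j : Fin 3} (hj : p ∣ S1 z y (fF U V) j) (hpD : ¬ (p : ℤ) ∣ D) {m : ℕ}
    (hpm : p ∈ m.primeFactors) :
    jacobiSym V p = jacobiSym (if j = 1 then 2 * D else -D) p *
      (if p ∈ sgF (D * fF U V 0) (D * fF U V 1) m then -1 else 1) := by
  obtain ⟨hPS, hjf, -⟩ := (Pool.Agent.W571.RT.S1_dvd_iff hp).1 hj
  have hzp := (mem_PS.1 hPS).1.1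
  have hpi : Prime (p : ℤ) := Nat.prime_iff_prime_int.1 hp
  have hz := hB.1
  rw [Fintype.card_fin] at hz
  have h2 : ¬ (p : ℤ) ∣ 2 := by
    intro h
    have h3 : p ∣ 2 := by exact_mod_cast h
    have := Nat.le_of_dvd (by norm_num) h3
    omega
  have hVn : ¬ (p : ℤ) ∣ V := un_ofZ hB hUV hp hzp hjf
  have hother : ∀ l, j ≠ l → ¬ (p : ℤ) ∣ D * fF U V l := by
    intro l hl h
    rcases hpi.dvd_or_dvd h with h | h
    · exact hpD h
    · exact Pool.Agent.W571.RT.fv_not_dvd hB hp hzp hUV hl hjf h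
  have e0 : fF U V 0 = U := by unfold fF fv αF βF; simp
  have e1 : fF U V 1 = 2 * U + V := by unfold fF fv αF βF; simp
  have e2 : fF U V 2 = -U - V := by unfold fF fv αF βF; simp; ring
  have hAB : D * fF U V 0 - D * fF U V 1 = D * fF U V 2 := by rw [e0, e1, e2]; ring
  have key : ∀ c : ℤ, ¬ (p : ℤ) ∣ c →
      (p ∈ sgF (D * fF U V 0) (D * fF U V 1) m ↔ jacobiSym (c * V) p = -1) →
      jacobiSym V p = jacobiSym c p *
        (if p ∈ sgF (D * fF U V 0) (D * fF U V 1) m then -1 else 1) := by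
    intro c hc hiff
    have h3 : ¬ (p : ℤ) ∣ c * V := fun h => by
      rcases hpi.dvd_or_dvd h with h | h
      · exact hc h
      · exact hVn h
    have h4 : jacobiSym (c * V) p =
        (if p ∈ sgF (D * fF U V 0) (D * fF U V 1) m then -1 else 1) := by
      by_cases h5 : p ∈ sgF (D * fF U V 0) (D * fF U V 1) m
      · rw [if_pos h5]
        exact hiff.1 h5
      · rw [if_neg h5]
        exact (jac_pm hp h3).resolve_right fun h => h5 (hiff.2 h)
    rw [← h4, jacobiSym.mul_left, ← mul_assoc]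
    rcases jac_pm hp hc with h | h <;> rw [h] <;> norm_num
  have hmod : ∀ a b : ℤ, (p : ℤ) ∣ a - b → jacobiSym a p = jacobiSym b p := by
    intro a b h
    apply jacobiSym.mod_left'
    exact (Int.modEq_iff_dvd.2 h).symm
  have hj012 : j = 0 ∨ j = 1 ∨ j = 2 := by
    fin_cases j <;> simp
  rcases hj012 with rfl | rfl | rfl
  · have a0 : (p : ℤ) ∣ D * fF U V 0 := Dvd.dvd.mul_left hjf _
    have a1 : ¬ (p : ℤ) ∣ D * fF U V 1 := hother 1 (by decide)
    have a2 : ¬ (p : ℤ) ∣ D * fF U V 2 := hother 2 (by decide)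
    rw [if_neg (by decide)]
    apply key _ (fun h => hpD ((dvd_neg).1 h))
    have h5 : jacobiSym (-(D * fF U V 1)) p = jacobiSym (-D * V) p := by
      apply hmod
      rw [e1]
      rw [e0] at hjf
      have : -(D * (2 * U + V)) - -D * V = (-(2 * D)) * U := by ring
      rw [this]
      exact hjf.mul_left _
    unfold sgF
    rw [mem_filter, hAB, h5]
    simp [hpm, a0, a1, a2]
  · have a1 : (p : ℤ) ∣ D * fF U V 1 := Dvd.dvd.mul_left hjf _
    have a0 : ¬ (p : ℤ) ∣ D * fF U V 0 := hother 0 (by decide)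
    have a2 : ¬ (p : ℤ) ∣ D * fF U V 2 := hother 2 (by decide)
    rw [if_pos rfl]
    apply key _ (fun h => (hpi.dvd_or_dvd h).elim h2 hpD)
    have h5 : jacobiSym (-(D * fF U V 0)) p = jacobiSym (2 * D * V) p := by
      have h6 : jacobiSym (2 ^ 2 * -(D * fF U V 0)) p = jacobiSym (-(D * fF U V 0)) p := by
        rw [jacobiSym.mul_left, Pool.Agent.W571.RT.jac_sq hp h2, one_mul]
      rw [← h6]
      apply hmod
      rw [e0]
      rw [e1] at hjf
      have : 2 ^ 2 * -(D * U) - 2 * D * V = (-(2 * D)) * (2 * U + V) := by ring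
      rw [this]
      exact hjf.mul_left _
    unfold sgF
    rw [mem_filter, hAB, h5]
    simp [hpm, a0, a1, a2]
  · have a2 : (p : ℤ) ∣ D * fF U V 2 := Dvd.dvd.mul_left hjf _
    have a0 : ¬ (p : ℤ) ∣ D * fF U V 0 := hother 0 (by decide)
    have a1 : ¬ (p : ℤ) ∣ D * fF U V 1 := hother 1 (by decide)
    rw [if_neg (by decide)]
    apply key _ (fun h => hpD ((dvd_neg).1 h))
    have h5 : jacobiSym (D * fF U V 0) p = jacobiSym (-D * V) p := by
      apply hmod
      rw [e0]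
      rw [e2] at hjf
      have : D * U - -D * V = (-D) * (-U - V) := by ring
      rw [this]
      exact hjf.mul_left _
    unfold sgF
    rw [mem_filter, hAB, h5]
    simp [hpm, a0, a1, a2]

lemma card_inst {α : Type} (s : Finset α) (P : α → Prop) (i1 i2 : DecidablePred P) :
    (@filter α P i1 s).card ≤ (@filter α P i2 s).card := by
  have : i1 = i2 := Subsingleton.elim _ _
  subst this
  rfl

/-- CNTF -/
theorem cntf_of (h : Pool.Agent.W307.RT.SVR2) (h2 : Pool.Agent.W307.FK.AVHR) :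
    Pool.Agent.W307.FK.CNTF := by
  intro z B hz8
  have hB : Bg αF βF z := bgF hz8
  obtain ⟨C, K, y0, hC, hK, hSV⟩ := h (Fin 3) z hB.1
  obtain ⟨CA, hCA, hav⟩ := h2 (Fintype.card (Fin 3)) z B hB.1
  refine ⟨C * CA + 2 * (Fintype.card (Fin 3)).factorial, K, y0, by positivity, hK, ?_⟩
  intro D N1 N2 X y Y hD hN1 hN2 hy0 hzy hX s hs v hv u hu hsvu E
  obtain ⟨ms, hms⟩ : ∃ ms, ms = ∏ j, s j := ⟨_, rfl⟩
  rw [← hms]
  unfold fF
  have hs' := (Pool.Agent.W372.RK2.mem_Tup'.1 hs).1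
  have hv' := (Pool.Agent.W372.RK2.mem_Tup'.1 hv).1
  have hu' := (Pool.Agent.W372.RK2.mem_Tup'.1 hu).1
  have hz : 2 ≤ z := by have := hB.1; omega
  have hc : Fintype.card (Fin 3) ≤ z := by have := hB.1; omega
  have hy1 : 1 ≤ y := by omega
  have hyX : y ≤ X := (Nat.le_self_pow (by omega) y).trans hX
  have hX1 : 1 ≤ X := hy1.trans hyX
  have hlogy : 0 < Real.log y := Real.log_pos (by exact_mod_cast (by omega : 1 < y))
  have hlog0 : 0 < (Real.log y) ^ (Fintype.card (Fin 3)) := pow_pos hlogy _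
  have hlog : 0 ≤ (Real.log y) ^ (Fintype.card (Fin 3)) := hlog0.le
  have hgs : ∀ j, 0 ≤ gw 1 (Fintype.card (Fin 3)) (s j) := fun j => gw_nonneg zero_le_one hc (hs' j)
  have hgv : ∀ j, 0 ≤ gw 1 (Fintype.card (Fin 3)) (v j) := fun j => gw_nonneg zero_le_one hc (hv' j)
  have hP1 : 0 ≤ ∏ j, gw 1 (Fintype.card (Fin 3)) (s j) := prod_nonneg fun j _ => hgs j
  have hP2 : 0 ≤ ∏ j, gw 1 (Fintype.card (Fin 3)) (v j) / v j :=
    prod_nonneg fun j _ => div_nonneg (hgv j) (Nat.cast_nonneg _)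
  have hP3 : 0 ≤ ∏ j, 1 / (u j : ℝ) := prod_nonneg fun j _ => by positivity
  set T := (Icc 1 X ×ˢ Icc 1 X).filter (fun t : ℕ × ℕ =>
      IsCoprime (N1 + (t.1 : ℤ)) (N2 + (t.2 : ℤ)) ∧
      S1 z y (fv αF βF (N1 + (t.1 : ℤ)) (N2 + (t.2 : ℤ))) = s ∧
      S2 z y (fv αF βF (N1 + (t.1 : ℤ)) (N2 + (t.2 : ℤ))) = v ∧
      (∀ j, (u j : ℤ) ∣ fv αF βF (N1 + (t.1 : ℤ)) (N2 + (t.2 : ℤ)) j) ∧
      sgF (D * fv αF βF (N1 + (t.1 : ℤ)) (N2 + (t.2 : ℤ)) 0)
        (D * fv αF βF (N1 + (t.1 : ℤ)) (N2 + (t.2 : ℤ)) 1) ms = E) with hT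
  have hun : ∀ t w : ℤ, IsCoprime t w → ∀ p : ℕ, p.Prime → z < p → ∀ j l,
      (p : ℤ) ∣ fv αF βF t w j → (p : ℤ) ∣ fv αF βF t w l → j = l := by
    intro t w htw p hp hzp j l hj hl
    by_contra hne
    have hw := un_ofZ hB htw hp hzp hj
    have h1 : Res αF βF j l * w = αF j * fv αF βF t w l - αF l * fv αF βF t w j := by
      unfold Res fv
      ring
    have h3 : (p : ℤ) ∣ Res αF βF j l * w := by
      rw [h1]
      exact dvd_sub (hl.mul_left _) (hj.mul_left _)
    have hpI : Prime (p : ℤ) := Nat.prime_iff_prime_int.1 hp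
    rcases hpI.dvd_or_dvd h3 with h | h
    · exact (hB.2 p hp hzp).2 j l hne h
    · exact hw h
  have hgood : ∀ t ∈ T, G2 z y s v u (fv αF βF (N1 + (t.1 : ℤ)) (N2 + (t.2 : ℤ))) := by
    intro t ht
    rw [hT, mem_filter] at ht
    exact ⟨ht.2.2.1, ht.2.2.2.1, ht.2.2.2.2.1, hun _ _ ht.2.1⟩
  rcases T.eq_empty_or_nonempty with hTe | ⟨t0, ht0⟩
  · rw [hTe, card_empty, Nat.cast_zero]
    apply div_nonneg _ hlog
    positivity
  set m := ∏ j, mj c0 s v u j with hm
  have hmj1 : ∀ j, 1 ≤ mj c0 s v u j := by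
    intro j
    rw [mj_eq]
    have h1 := dv_pos (hs' j)
    have h2 := dv_pos (hv' j)
    have h3 := dv_pos (hu' j)
    exact Nat.succ_le_of_lt (by positivity)
  have hm1 : 1 ≤ m := Nat.succ_le_of_lt (prod_pos fun j _ => hmj1 j)
  have hm4 : m ^ 4 ≤ X := by
    refine le_trans ?_ hsvu
    have h1 : m ≤ (∏ j, s j * v j * u j) ^ 2 := by
      rw [← prod_pow]
      apply prod_le_prod'
      intro j _
      rw [mj_eq]
      have h1 := dv_pos (hs' j)
      have h3 := dv_pos (hu' j)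
      calc s j * v j ^ 2 * u j ≤ (s j * s j) * v j ^ 2 * (u j * u j) := by
            apply Nat.mul_le_mul
            · apply Nat.mul_le_mul_right
              nlinarith
            · nlinarith
        _ = (s j * v j * u j) ^ 2 := by ring
    calc m ^ 4 ≤ ((∏ j, s j * v j * u j) ^ 2) ^ 4 := Nat.pow_le_pow_left h1 4
      _ = (∏ j, s j * v j * u j) ^ 8 := by rw [← pow_mul]
  have hsq := hgood t0 ht0
  -- factors
  set g : ℕ → ℝ := fun p => (p : ℝ) / ((p : ℝ) - Fintype.card (Fin 3)) with hg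
  have hg1 : ∀ p, z < p → 1 ≤ g p := by
    intro p hp
    have h1 : ((Fintype.card (Fin 3) : ℕ) : ℝ) < p := by exact_mod_cast lt_of_le_of_lt hc hp
    rw [hg]
    simp only
    rw [le_div_iff₀ (by linarith)]
    have : (0 : ℝ) ≤ ((Fintype.card (Fin 3) : ℕ) : ℝ) := Nat.cast_nonneg _
    linarith
  set Gm : ℝ := ∏ p ∈ m.primeFactors.filter (fun p => p ∈ PS z y), g p with hGm
  have hGm0 : 0 ≤ Gm := prod_nonneg fun p hp =>
    zero_le_one.trans (hg1 p (mem_PS.1 (mem_filter.1 hp).2).1.1)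
  have hmul : ∀ w : ℕ, w ≠ 0 → ∏ p ∈ (m * w).primeFactors.filter (fun p => p ∈ PS z y), g p ≤
      Gm * ∏ p ∈ w.primeFactors.filter (fun p => z < p), g p := by
    intro w hw
    have e1 : (m * w).primeFactors.filter (fun p => p ∈ PS z y) =
        m.primeFactors.filter (fun p => p ∈ PS z y) ∪
          (w.primeFactors.filter (fun p => p ∈ PS z y) \
            m.primeFactors.filter (fun p => p ∈ PS z y)) := by
      rw [union_sdiff_self_eq_union, Nat.primeFactors_mul (by omega) hw, filter_union]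
    rw [e1, prod_union disjoint_sdiff]
    apply mul_le_mul_of_nonneg_left _ hGm0
    have e2 : (w.primeFactors.filter (fun p => p ∈ PS z y) \
        m.primeFactors.filter (fun p => p ∈ PS z y)) ⊆
        w.primeFactors.filter (fun p => z < p) := by
      intro p hp
      rw [mem_sdiff, mem_filter] at hp
      rw [mem_filter]
      exact ⟨hp.1.1, (mem_PS.1 hp.1.2).1.1⟩
    rw [← prod_sdiff e2]
    apply le_mul_of_one_le_left
    · exact prod_nonneg fun p hp => zero_le_one.trans (hg1 p (mem_filter.1 (e2 hp)).2)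
    · have h1 : ∀ p ∈ w.primeFactors.filter (fun p => z < p) \
          (w.primeFactors.filter (fun p => p ∈ PS z y) \
            m.primeFactors.filter (fun p => p ∈ PS z y)), (1 : ℝ) ≤ g p := by
        intro p hp
        exact hg1 p (mem_filter.1 (mem_sdiff.1 hp).1).2
      calc (1 : ℝ) = ∏ p ∈ w.primeFactors.filter (fun p => z < p) \
          (w.primeFactors.filter (fun p => p ∈ PS z y) \
            m.primeFactors.filter (fun p => p ∈ PS z y)), (1 : ℝ) := by simp
        _ ≤ _ := prod_le_prod (fun _ _ => zero_le_one) h1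
  set W : ℕ → ℕ := fun w => (N2 + (w : ℤ)).natAbs with hW
  have hGw0 : ∀ w : ℕ, 0 ≤ ∏ p ∈ (W w).primeFactors.filter (fun p => z < p), g p :=
    fun w => prod_nonneg fun p hp => zero_le_one.trans (hg1 p (mem_filter.1 hp).2)
  -- bound for a fixed second variable
  have hfib : ∀ w ∈ Icc 1 X, N2 + (w : ℤ) ≠ 0 →
      ((T.filter (fun t : ℕ × ℕ => t.2 = w)).card : ℝ) ≤
      C * (X / m) * (Gm * ∏ p ∈ (W w).primeFactors.filter (fun p => z < p), g p) /
        (Real.log y) ^ (Fintype.card (Fin 3)) := by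
    intro w hw hw0'
    rw [mem_Icc] at hw
    have hw0 : W w ≠ 0 := Int.natAbs_ne_zero.2 hw0'
    set β' : Fin 3 → ℤ := fun j => αF j * N1 + βF j * (N2 + (w : ℤ)) with hβ'
    have hcond : ∀ p ∈ PS z y, ¬ p ∣ m * W w → (∀ j, ¬ (p : ℤ) ∣ αF j) ∧
        ∀ j l, j ≠ l → ¬ (p : ℤ) ∣ Res αF β' j l := by
      intro p hp hpm
      have hpp := (mem_PS.1 hp).2
      have hzp := (mem_PS.1 hp).1.1
      refine ⟨(hB.2 p hpp hzp).1, fun j l hjl hd => ?_⟩
      have h1 : Res αF β' j l = Res αF βF j l * (N2 + (w : ℤ)) := by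
        unfold Res
        rw [hβ']
        ring
      rw [h1] at hd
      have hpI : Prime (p : ℤ) := Nat.prime_iff_prime_int.1 hpp
      rcases hpI.dvd_or_dvd hd with h | h
      · exact (hB.2 p hpp hzp).2 j l hjl h
      · exact hpm ((Int.natCast_dvd.1 h).mul_left _)
    have hbd : ∀ r : ℕ, (((Icc 1 X).filter (fun t : ℕ => t ≡ r [MOD m] ∧
        ∀ p ∈ PS z y, ¬ p ∣ m * W w →
        ∀ j, ¬ (p : ℤ) ∣ ff αF β' t j)).card : ℝ) ≤
        C * (X / m) * (Gm * ∏ p ∈ (W w).primeFactors.filter (fun p => z < p), g p) /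
          (Real.log y) ^ (Fintype.card (Fin 3)) := by
      intro r
      have hsv0 := hSV X y hy0 hzy hX αF β' m (m * W w) r hm1
        (dvd_mul_right _ _) (mul_ne_zero (by omega) hw0) hm4 hcond
      refine le_trans (Nat.cast_le.2 (card_inst _ _ _ _)) (hsv0.trans ?_)
      apply div_le_div_of_nonneg_right _ hlog
      apply mul_le_mul_of_nonneg_left (hmul (W w) hw0)
      positivity
    rcases (T.filter (fun t : ℕ × ℕ => t.2 = w)).eq_empty_or_nonempty with he | ⟨r, hr⟩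
    · rw [he, card_empty, Nat.cast_zero]
      exact le_trans (Nat.cast_nonneg _) (hbd 0)
    · refine le_trans ?_ (hbd r.1)
      rw [Nat.cast_le]
      apply card_le_card_of_injOn (fun t : ℕ × ℕ => t.1)
      · intro t ht
        have ht' : t ∈ T.filter (fun t : ℕ × ℕ => t.2 = w) := ht
        rw [mem_filter] at ht' hr
        have g1 := hgood t ht'.1
        have g2 := hgood r hr.1
        have htX : t.1 ∈ Icc 1 X := (mem_product.1 (mem_filter.1 ht'.1).1).1
        simp only [coe_filter, Set.mem_ofPred_eq]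
        rw [ht'.2] at g1
        rw [hr.2] at g2
        refine ⟨htX, ?_, ?_⟩
        · have h1 := cong (α := αF) (fun p hp hz => (hB.2 p hp hz).1) hzy hs hv hu g1 g2
            (t := (t.1 : ℤ)) (t' := (r.1 : ℤ)) (fun j => by unfold fv; ring)
          rw [← hm] at h1
          exact ((Nat.modEq_iff_dvd.2 h1)).symm
        · intro p hpP hpm j hpf
          have hp := (mem_PS.1 hpP).2
          apply hpm
          apply Dvd.dvd.mul_right
          rw [hm]
          refine Dvd.dvd.trans ?_ (dvd_prod_of_mem _ (mem_univ j))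
          rw [mj_eq]
          have hff : ff αF β' (t.1 : ℤ) j = fv αF βF (N1 + (t.1 : ℤ)) (N2 + (w : ℤ)) j := by
            unfold ff fv
            rw [hβ']
            ring
          rw [hff] at hpf
          by_cases h2 : (p : ℤ) ^ 2 ∣ fv αF βF (N1 + (t.1 : ℤ)) (N2 + (w : ℤ)) j
          · have h3 : p ∣ v j := by
              rw [← g1.hv]
              exact (dvd_S2 hp).2 ⟨hpP, h2⟩
            exact (((h3.pow two_ne_zero).mul_left _).mul_right _)
          · have h3 : p ∣ s j := by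
              rw [← g1.hs]
              exact (dvd_S1 hp).2 ⟨hpP, hpf, h2⟩
            exact ((h3.mul_right _).mul_right _)
      · intro a ha b hb hab
        have ha' : a ∈ T.filter (fun t : ℕ × ℕ => t.2 = w) := ha
        have hb' : b ∈ T.filter (fun t : ℕ × ℕ => t.2 = w) := hb
        rw [mem_filter] at ha' hb'
        exact Prod.ext hab (ha'.2.trans hb'.2.symm)
  -- the pairs with second coordinate zero
  have hzero : (T.filter (fun t : ℕ × ℕ => N2 + (t.2 : ℤ) = 0)).card ≤ 2 := by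
    have hsub : (T.filter (fun t : ℕ × ℕ => N2 + (t.2 : ℤ) = 0)) ⊆
        ({((1 - N1).toNat, (-N2).toNat), ((-1 - N1).toNat, (-N2).toNat)} : Finset (ℕ × ℕ)) := by
      intro t ht
      rw [mem_filter] at ht
      have hcop := (mem_filter.1 ht.1).2.1
      rw [ht.2, isCoprime_zero_right, Int.isUnit_iff] at hcop
      rw [mem_insert, mem_singleton]
      have ht2 : t.2 = (-N2).toNat := by omega
      rcases hcop with h | h
      · left
        exact Prod.ext (by simp only; omega) ht2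
      · right
        exact Prod.ext (by simp only; omega) ht2
    exact (card_le_card hsub).trans card_le_two
  have hsplit : T.card = (T.filter (fun t : ℕ × ℕ => N2 + (t.2 : ℤ) = 0)).card +
      (T.filter (fun t : ℕ × ℕ => ¬ N2 + (t.2 : ℤ) = 0)).card :=
    (card_filter_add_card_filter_not _).symm
  -- the signs
  have hmsd : ms ∣ PP z y := by rw [hms]; exact Tup_prod_dvd hs
  have hmsq : Squarefree ms := (PP_squarefree z y).squarefree_of_dvd hmsd
  have hms0 : ms ≠ 0 := hmsq.ne_zero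
  have hmsp : ∀ p ∈ ms.primeFactors, z < p := by
    intro p hp
    have hpp := Nat.prime_of_mem_primeFactors hp
    exact (mem_PS.1 ((prime_dvd_PP hpp).1 ((Nat.dvd_of_mem_primeFactors hp).trans hmsd))).1.1
  have hms4 : ms ^ 4 ≤ X := by
    refine le_trans ?_ hsvu
    have h1 : ms ≤ ∏ j, s j * v j * u j := by
      rw [hms]
      apply prod_le_prod'
      intro j _
      have h1 := dv_pos (hs' j)
      have h2 := dv_pos (hv' j)
      have h3 := dv_pos (hu' j)
      calc s j = s j * 1 * 1 := by ring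
        _ ≤ s j * v j * u j := Nat.mul_le_mul (Nat.mul_le_mul le_rfl h2) h3
    calc ms ^ 4 ≤ (∏ j, s j * v j * u j) ^ 4 := Nat.pow_le_pow_left h1 4
      _ ≤ (∏ j, s j * v j * u j) ^ 8 := Nat.pow_le_pow_right
        (le_trans (Nat.one_le_iff_ne_zero.2 hms0) h1) (by norm_num)
  have hpj : ∀ p ∈ ms.primeFactors, ∃ j, p ∣ s j := by
    intro p hp
    have hpp := Nat.prime_of_mem_primeFactors hp
    have h1 := Nat.dvd_of_mem_primeFactors hp
    rw [hms, Prime.dvd_finsetProd_iff hpp.prime] at h1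
    obtain ⟨j, -, hj⟩ := h1
    exact ⟨j, hj⟩
  obtain ⟨ε, hεd⟩ : ∃ ε : ℕ → ℤ, ε = fun p => if jacobiSym (if p ∣ s 1 then 2 * D else -D) p *
      (if p ∈ E then -1 else 1) = -1 then -1 else 1 := ⟨_, rfl⟩
  have hε : ∀ p, ε p = 1 ∨ ε p = -1 := by
    intro p
    rw [hεd]
    simp only
    split_ifs
    all_goals simp
  have hVgood : ∀ t ∈ T, ∀ p ∈ ms.primeFactors, ¬ (p : ℤ) ∣ N2 + (t.2 : ℤ) ∧
      (¬ p ∣ D.natAbs → jacobiSym (N2 + (t.2 : ℤ)) p = ε p) := by
    intro t ht p hp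
    have hpp := Nat.prime_of_mem_primeFactors hp
    have hzp := hmsp p hp
    obtain ⟨j, hj⟩ := hpj p hp
    have ht' := ht
    rw [hT, mem_filter] at ht'
    obtain ⟨-, hcop, hS1, -, -, hsg⟩ := ht'
    have hjS : p ∣ S1 z y (fv αF βF (N1 + (t.1 : ℤ)) (N2 + (t.2 : ℤ))) j := by rw [hS1]; exact hj
    have hjf := (Pool.Agent.W571.RT.S1_dvd_iff hpp).1 hjS
    have hVn := un_ofZ hB hcop hpp hzp hjf.2.1
    refine ⟨hVn, fun hpD => ?_⟩
    have h1 := sign_eq hB hcop hpp hjS (fun h => hpD (Int.natCast_dvd.1 h)) hp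
    have h2 : (p ∣ s 1) ↔ j = 1 := by
      constructor
      · intro h3
        have h4 : p ∣ S1 z y (fv αF βF (N1 + (t.1 : ℤ)) (N2 + (t.2 : ℤ))) 1 := by
          rw [hS1]; exact h3
        have h5 := (Pool.Agent.W571.RT.S1_dvd_iff hpp).1 h4
        exact hun _ _ hcop p hpp hzp j 1 hjf.2.1 h5.2.1
      · intro h3
        rw [← h3]
        exact hj
    have h3 : jacobiSym (N2 + (t.2 : ℤ)) p = jacobiSym (if p ∣ s 1 then 2 * D else -D) p *
        (if p ∈ E then -1 else 1) := by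
      have h4 : (if p ∣ s 1 then 2 * D else -D) = (if j = 1 then 2 * D else -D) := by
        by_cases h5 : j = 1
        · rw [if_pos h5, if_pos (h2.2 h5)]
        · rw [if_neg h5, if_neg (fun h => h5 (h2.1 h))]
      rw [h4, ← hsg]
      exact h1
    rw [hεd]
    simp only
    rw [← h3]
    rcases jac_pm hpp hVn with h | h <;> rw [h] <;> norm_num
  obtain ⟨Sg, hSg⟩ : ∃ Sg, Sg = (Icc 1 X).filter (fun w : ℕ => N2 + (w : ℤ) ≠ 0 ∧
    ∃ t ∈ T, t.2 = w) := ⟨_, rfl⟩
  have hSgood : ∀ w ∈ Sg, ∀ p ∈ ms.primeFactors, ¬ (p : ℤ) ∣ N2 + (w : ℤ) ∧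
      (¬ p ∣ D.natAbs → jacobiSym (N2 + (w : ℤ)) p = ε p) := by
    intro w hw
    rw [hSg, mem_filter] at hw
    obtain ⟨-, -, t, ht, rfl⟩ := hw
    exact hVgood t ht
  have hSsub : Sg ⊆ Icc 1 X := by rw [hSg]; exact filter_subset _ _
  obtain ⟨Q, hQ⟩ : ∃ Q : ℝ, Q = (1 / 2) ^ ms.primeFactors.card *
    2 ^ D.natAbs.primeFactors.card := ⟨_, rfl⟩
  have hQ0 : 0 ≤ Q := by rw [hQ]; positivity
  have hcard : ((T.filter (fun t : ℕ × ℕ => ¬ N2 + (t.2 : ℤ) = 0)).card : ℝ) ≤ ∑ w ∈ Sg,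
      C * (X / m) * (Gm * ∏ p ∈ (W w).primeFactors.filter (fun p => z < p), g p) /
        (Real.log y) ^ (Fintype.card (Fin 3)) := by
    rw [card_eq_sum_card_fiberwise (f := fun t : ℕ × ℕ => t.2) (t := Sg)
      (fun t ht => by
        have ht' : t ∈ T.filter (fun t : ℕ × ℕ => ¬ N2 + (t.2 : ℤ) = 0) := ht
        rw [mem_filter] at ht'
        have hI : t.2 ∈ Icc 1 X := (mem_product.1 (mem_filter.1 ht'.1).1).2
        rw [hSg]
        exact mem_filter.2 ⟨hI, ht'.2, t, ht'.1, rfl⟩)]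
    rw [Nat.cast_sum]
    refine sum_le_sum fun w hw => ?_
    have hw' := hw
    rw [hSg, mem_filter] at hw'
    refine le_trans ?_ (hfib w hw'.1 hw'.2.1)
    rw [Nat.cast_le]
    apply card_le_card
    intro t ht
    rw [mem_filter, mem_filter] at ht
    exact mem_filter.2 ⟨ht.1.1, ht.2⟩
  have hsum : ∑ w ∈ Sg,
      C * (X / m) * (Gm * ∏ p ∈ (W w).primeFactors.filter (fun p => z < p), g p) /
        (Real.log y) ^ (Fintype.card (Fin 3)) ≤
      C * (X / m) * (Gm * (CA * X * Q)) / (Real.log y) ^ (Fintype.card (Fin 3)) := by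
    rw [← sum_div, ← mul_sum, ← mul_sum]
    apply div_le_div_of_nonneg_right _ hlog
    apply mul_le_mul_of_nonneg_left _ (by positivity)
    apply mul_le_mul_of_nonneg_left _ hGm0
    have h1 := good_sum hCA hav hc N2 X ms hX1 hN2 hms4 hmsq
      (fun p hp => by have := hmsp p hp; omega) D hD ε hε Sg hSsub hSgood
    rw [hQ, ← mul_assoc]
    exact h1
  have hGmeq : Gm = ∏ j, ((s j * gw 1 (Fintype.card (Fin 3)) (s j)) *
      (v j * gw 1 (Fintype.card (Fin 3)) (v j))) := prod_pr hs hv hu hsq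
  have hterm : ∀ j, ((s j *
      gw 1 (Fintype.card (Fin 3)) (s j)) * (v j * gw 1 (Fintype.card (Fin 3)) (v j))) /
      ((mj c0 s v u j : ℕ) : ℝ) = gw 1 (Fintype.card (Fin 3)) (s j) *
      (gw 1 (Fintype.card (Fin 3)) (v j) / v j) * (1 / (u j : ℝ)) := by
    intro j
    have h1 : (s j : ℝ) ≠ 0 := Nat.cast_ne_zero.2 (dv_ne_zero (hs' j))
    have h2 : (v j : ℝ) ≠ 0 := Nat.cast_ne_zero.2 (dv_ne_zero (hv' j))
    have h3 : (u j : ℝ) ≠ 0 := Nat.cast_ne_zero.2 (dv_ne_zero (hu' j))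
    rw [mj_eq]
    rw [Nat.cast_mul, Nat.cast_mul, Nat.cast_pow]
    field_simp
  have hprod : (∏ j, ((s j * gw 1 (Fintype.card (Fin 3)) (s j)) *
      (v j * gw 1 (Fintype.card (Fin 3)) (v j)))) /
      (∏ j, ((mj c0 s v u j : ℕ) : ℝ)) = (∏ j, gw 1 (Fintype.card (Fin 3)) (s j)) *
        (∏ j, gw 1 (Fintype.card (Fin 3)) (v j) / v j) * (∏ j, 1 / (u j : ℝ)) := by
    rw [← prod_div_distrib, ← prod_mul_distrib, ← prod_mul_distrib]
    exact prod_congr rfl fun j _ => hterm j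
  -- the right side
  set R : ℝ := (∏ j, gw 1 (Fintype.card (Fin 3)) (s j)) *
        (∏ j, gw 1 (Fintype.card (Fin 3)) (v j) / v j) * (∏ j, 1 / (u j : ℝ)) with hR
  have hm0 : (0 : ℝ) < m := by exact_mod_cast hm1
  have hRm : Gm / m = R := by
    rw [← hprod, hGmeq, hm, Nat.cast_prod]
  have hGm1 : 1 ≤ Gm := by
    rw [hGm]
    calc (1 : ℝ) = ∏ p ∈ m.primeFactors.filter (fun p => p ∈ PS z y), (1 : ℝ) := by simp
      _ ≤ _ := prod_le_prod (fun _ _ => zero_le_one)
        (fun p hp => hg1 p (mem_PS.1 (mem_filter.1 hp).2).1.1)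
  have hXR : (0 : ℝ) < X := by exact_mod_cast hX1
  have hmX : (m : ℝ) ≤ X := by
    have : m ≤ X := (Nat.le_self_pow (by norm_num) m).trans hm4
    exact_mod_cast this
  have hlogX : (Real.log y) ^ (Fintype.card (Fin 3)) ≤ (Fintype.card (Fin 3)).factorial * X := by
    have h1 := Real.pow_div_factorial_le_exp (Real.log y) hlogy.le (Fintype.card (Fin 3))
    rw [Real.exp_log (by exact_mod_cast (by omega : 0 < y)), div_le_iff₀ (by positivity)] at h1
    have h2 : (y : ℝ) ≤ X := by exact_mod_cast hyX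
    have h3 : (0 : ℝ) ≤ ((Fintype.card (Fin 3)).factorial : ℝ) := by positivity
    nlinarith
  have htwo : (2 : ℝ) ≤ 2 * (Fintype.card (Fin 3)).factorial * (X : ℝ) ^ 2 * R /
      (Real.log y) ^ (Fintype.card (Fin 3)) := by
    rw [le_div_iff₀ hlog0, ← hRm]
    have h1 : (1 : ℝ) ≤ (X : ℝ) * (Gm / m) := by
      rw [← mul_div_assoc, le_div_iff₀ hm0]
      nlinarith
    have h2 : (0 : ℝ) ≤ 2 * (Fintype.card (Fin 3)).factorial * (X : ℝ) := by positivity
    calc 2 * (Real.log y) ^ (Fintype.card (Fin 3)) ≤ 2 * ((Fintype.card (Fin 3)).factorial * X) := by linarith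
      _ = 2 * (Fintype.card (Fin 3)).factorial * (X : ℝ) * 1 := by ring
      _ ≤ 2 * (Fintype.card (Fin 3)).factorial * (X : ℝ) * ((X : ℝ) * (Gm / m)) :=
          mul_le_mul_of_nonneg_left h1 h2
      _ = 2 * (Fintype.card (Fin 3)).factorial * (X : ℝ) ^ 2 * (Gm / m) := by ring
  have hmain : C * (X / m) * (Gm * (CA * X * Q)) / (Real.log y) ^ (Fintype.card (Fin 3)) =
      C * CA * (X : ℝ) ^ 2 * R / (Real.log y) ^ (Fintype.card (Fin 3)) * Q := by
    rw [← hRm]
    ring
  have hz2 : ((T.filter (fun t : ℕ × ℕ => N2 + (t.2 : ℤ) = 0)).card : ℝ) ≤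
      2 * (Fintype.card (Fin 3)).factorial * (X : ℝ) ^ 2 * R /
      (Real.log y) ^ (Fintype.card (Fin 3)) * Q := by
    have hb0 : 0 ≤ 2 * (Fintype.card (Fin 3)).factorial * (X : ℝ) ^ 2 * R /
      (Real.log y) ^ (Fintype.card (Fin 3)) := le_trans (by norm_num) htwo
    rcases (T.filter (fun t : ℕ × ℕ => N2 + (t.2 : ℤ) = 0)).eq_empty_or_nonempty with he | ⟨t, ht⟩
    · rw [he, card_empty, Nat.cast_zero]
      exact mul_nonneg hb0 hQ0
    · have hQ1 : 1 ≤ Q := by
        have h1 : ms.primeFactors = ∅ := by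
          rw [eq_empty_iff_forall_notMem]
          intro p hp
          rw [mem_filter] at ht
          apply (hVgood t ht.1 p hp).1
          rw [ht.2]
          exact dvd_zero _
        rw [hQ, h1, card_empty, pow_zero, one_mul]
        exact one_le_pow₀ (by norm_num)
      have h2 : ((T.filter (fun t : ℕ × ℕ => N2 + (t.2 : ℤ) = 0)).card : ℝ) ≤ 2 := by
        exact_mod_cast hzero
      calc _ ≤ (2 : ℝ) := h2
        _ ≤ _ := htwo
        _ ≤ _ := le_mul_of_one_le_right hb0 hQ1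
  calc (T.card : ℝ) = ((T.filter (fun t : ℕ × ℕ => N2 + (t.2 : ℤ) = 0)).card : ℝ) +
      ((T.filter (fun t : ℕ × ℕ => ¬ N2 + (t.2 : ℤ) = 0)).card : ℝ) := by
        exact_mod_cast hsplit
    _ ≤ 2 * (Fintype.card (Fin 3)).factorial * (X : ℝ) ^ 2 * R /
        (Real.log y) ^ (Fintype.card (Fin 3)) * Q +
        C * CA * (X : ℝ) ^ 2 * R / (Real.log y) ^ (Fintype.card (Fin 3)) * Q := by
        have := hcard.trans (hsum.trans_eq hmain)
        linarith
    _ = (C * CA + 2 * (Fintype.card (Fin 3)).factorial) * 2 ^ D.natAbs.primeFactors.card *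
        X ^ 2 * (1 / 2) ^ ms.primeFactors.card *
        (∏ j, gw 1 (Fintype.card (Fin 3)) (s j)) *
        (∏ j, gw 1 (Fintype.card (Fin 3)) (v j) / v j) * (∏ j, 1 / (u j : ℝ)) /
        (Real.log y) ^ (Fintype.card (Fin 3)) := by
        rw [hR, hQ]
        ring

end Pool.Agent.W293.FK.Cntf
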