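import Pool.Agent.W307.FK.Stm
import Pool.Agent.W571.RT.Rank2
import Pool.Agent.W307.SE.Locp
import Pool.Agent.W407.SE.Ratp
import Pool.Agent.W405.SE.GoodP
import Pool.Agent.W612.SE.Seld

/-! FK-SELF: the bound of the 2-Selmer group by the local count. -/

set_option autoImplicit false

namespace Pool.Agent.W293.FK.Self

open Finset Pool.Agent.W262.RK Pool.Agent.W307.RT Pool.Agent.W571.RT Pool.Agent.W307.SE
  Pool.Agent.W307.FK

lemma xb : ∀ neg v v' h h' g g' : Bool, xor h g = (v && neg) → xor h' g' = (v' && neg) →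
    xor (xor h h') (xor g g') = (xor v v' && neg) := by decide

lemma xb' : ∀ neg v v' g g' : Bool, g = (v && neg) → g' = (v' && neg) →
    xor g g' = (xor v v' && neg) := by decide

lemma xcLR (c : Fin 3) (neg : Bool) : XC (LR c neg) := by
  unfold XC LR
  split_ifs with h0 h1
  · refine ⟨⟨rfl, rfl⟩, ?_⟩
    rintro a b c d a' b' c' d' ⟨rfl, h2⟩ ⟨rfl, h3⟩
    exact ⟨rfl, xb _ _ _ _ _ _ _ h2 h3⟩
  · refine ⟨⟨rfl, rfl⟩, ?_⟩
    rintro a b c d a' b' c' d' ⟨rfl, h2⟩ ⟨rfl, h3⟩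
    exact ⟨rfl, xb' _ _ _ _ _ h2 h3⟩
  · refine ⟨⟨rfl, rfl⟩, ?_⟩
    rintro a b c d a' b' c' d' ⟨rfl, h2⟩ ⟨rfl, h3⟩
    exact ⟨rfl, xb' _ _ _ _ _ h2 h3⟩

lemma xcLF (s : Fin 3 → ℕ) (E : Finset ℕ) (p : ℕ) : XC (LF s E p) :=
  ⟨fun j _ => (xcLR j _).1, fun a b c d a' b' c' d' h h' j hj =>
    (xcLR j _).2 a b c d a' b' c' d' (h j hj) (h' j hj)⟩

lemma phiLR (c : Fin 3) (neg h g : Bool) (hp : phi c h g = false) : LR c neg false false h g := by
  revert hp
  unfold phi LR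
  revert c neg h g
  decide

lemma val_odd {p : ℕ} (hp : p.Prime) {D x : ℤ} (hD0 : D ≠ 0) (hx0 : x ≠ 0) (hD : ¬ (p : ℤ) ∣ D)
    (h1 : (p : ℤ) ∣ x) (h2 : ¬ (p : ℤ) ^ 2 ∣ x) : Odd (padicValInt p (D * x)) := by
  have : Fact p.Prime := ⟨hp⟩
  rw [padicValInt.mul hD0 hx0, padicValInt.eq_zero_of_not_dvd hD, zero_add]
  have h3 : 1 ≤ padicValInt p x := by
    have := (padicValInt_dvd_iff 1 x).1 (by rwa [pow_one])
    exact this.resolve_left hx0
  have h4 : ¬ 2 ≤ padicValInt p x := fun h => h2 ((padicValInt_dvd_iff 2 x).2 (Or.inr h))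
  have h5 : padicValInt p x = 1 := by omega
  rw [h5]
  exact odd_one

lemma bad {f : Fin 3 → ℤ} {D : ℤ} {z y X K B m' : ℕ} (hz : 2 ≤ z) (hD : D ≠ 0)
    (h0 : ∀ j, f j ≠ 0) (hb : ∀ j, (f j).natAbs ≤ X ^ B) (hK : X < (y + 1) ^ K) (hy : 1 ≤ y)
    (hm' : ∀ q : ℕ, q.Prime → q ∣ ∏ j, S1 z y f j → ¬ q ∣ D.natAbs → q ∣ m') :
    ((2 * (D * f 0) * (D * f 1) * (D * f 2)).natAbs.primeFactors.filter
        (fun q => ¬ q ∣ m')).card ≤
      z + Fintype.card (Fin 3) * (B * K) + ∑ j, (S2 z y f j).primeFactors.card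
        + D.natAbs.primeFactors.card := by
  have hsub : ((2 * (D * f 0) * (D * f 1) * (D * f 2)).natAbs.primeFactors.filter
        (fun q => ¬ q ∣ m')) ⊆
      (((Icc 1 z) ∪ univ.biUnion (fun j => (f j).natAbs.primeFactors.filter (y < ·))) ∪
        univ.biUnion (fun j => (S2 z y f j).primeFactors)) ∪ D.natAbs.primeFactors := by
    intro q hq
    rw [mem_filter] at hq
    have hp := Nat.prime_of_mem_primeFactors hq.1
    have hdv := Nat.dvd_of_mem_primeFactors hq.1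
    rw [mem_union, mem_union, mem_union, mem_Icc]
    rcases Nat.lt_or_ge z q with h | h
    swap
    · exact Or.inl (Or.inl (Or.inl ⟨hp.one_lt.le, h⟩))
    by_cases hqD : q ∣ D.natAbs
    · right
      rw [Nat.mem_primeFactors]
      exact ⟨hp, hqD, Int.natAbs_ne_zero.2 hD⟩
    left
    have hqD' : ¬ (q : ℤ) ∣ D := fun h => hqD (Int.natCast_dvd.1 h)
    have hqi : Prime (q : ℤ) := Nat.prime_iff_prime_int.1 hp
    have hdv2 : (q : ℤ) ∣ 2 * (D * f 0) * (D * f 1) * (D * f 2) := Int.natCast_dvd.2 hdv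
    have hl : ∃ l, (q : ℤ) ∣ f l := by
      rcases hqi.dvd_or_dvd hdv2 with h1 | h1
      · rcases hqi.dvd_or_dvd h1 with h2 | h2
        · rcases hqi.dvd_or_dvd h2 with h3 | h3
          · exfalso
            have h4 : q ∣ 2 := by exact_mod_cast h3
            have h5 := Nat.le_of_dvd (by norm_num) h4
            omega
          · exact ⟨0, (hqi.dvd_or_dvd h3).resolve_left hqD'⟩
        · exact ⟨1, (hqi.dvd_or_dvd h2).resolve_left hqD'⟩
      · exact ⟨2, (hqi.dvd_or_dvd h1).resolve_left hqD'⟩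
    obtain ⟨l, hl⟩ := hl
    rcases Nat.lt_or_ge y q with hyq | hyq
    · left; right
      rw [mem_biUnion]
      refine ⟨l, mem_univ _, ?_⟩
      rw [mem_filter, Nat.mem_primeFactors]
      exact ⟨⟨hp, Int.natCast_dvd.1 hl, Int.natAbs_ne_zero.2 (h0 l)⟩, hyq⟩
    · right
      have hPS : q ∈ PS z y := mem_PS.2 ⟨⟨h, hyq⟩, hp⟩
      rw [mem_biUnion]
      refine ⟨l, mem_univ _, ?_⟩
      have hsq : (q : ℤ) ^ 2 ∣ f l := by
        by_contra hcon
        apply hq.2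
        refine hm' q hp (dvd_trans ?_ (dvd_prod_of_mem _ (mem_univ l))) hqD
        exact dvd_prod_of_mem _ (mem_filter.2 ⟨hPS, hl, hcon⟩)
      rw [Nat.mem_primeFactors]
      refine ⟨hp, dvd_prod_of_mem _ (mem_filter.2 ⟨hPS, hsq⟩), ?_⟩
      exact prod_ne_zero_iff.2 fun p hp => (mem_PS.1 (mem_filter.1 hp).1).2.ne_zero
  have hone : ∀ j, ((f j).natAbs.primeFactors.filter (y < ·)).card ≤ B * K := by
    intro j
    set S := (f j).natAbs.primeFactors.filter (y < ·) with hS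
    have h1 : (y + 1) ^ S.card ≤ ∏ q ∈ S, q :=
      Finset.pow_card_le_prod _ _ _ (fun q hq => by
        have := (mem_filter.1 hq).2
        omega)
    have h2 : ∏ q ∈ S, q ∣ (f j).natAbs :=
      (prod_dvd_prod_of_subset _ _ _ (filter_subset _ _)).trans (Nat.prod_primeFactors_dvd _)
    have h3 : ∏ q ∈ S, q ≤ (f j).natAbs :=
      Nat.le_of_dvd (Nat.pos_of_ne_zero (Int.natAbs_ne_zero.2 (h0 j))) h2
    have h4 : (y + 1) ^ S.card ≤ (y + 1) ^ (B * K) := by
      calc (y + 1) ^ S.card ≤ X ^ B := h1.trans (h3.trans (hb j))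
        _ ≤ ((y + 1) ^ K) ^ B := Nat.pow_le_pow_left hK.le _
        _ = (y + 1) ^ (B * K) := by rw [← pow_mul, mul_comm]
    exact (Nat.pow_le_pow_iff_right (by omega)).1 h4
  refine (card_le_card hsub).trans ((card_union_le _ _).trans (add_le_add
    ((card_union_le _ _).trans (add_le_add
    ((card_union_le _ _).trans (add_le_add ?_ ?_)) card_biUnion_le)) le_rfl))
  · simp
  · refine card_biUnion_le.trans ?_
    refine (sum_le_sum fun j _ => hone j).trans ?_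
    rw [sum_const, card_univ, smul_eq_mul]

/-- the local hypotheses and the signs -/
lemma loc {f : Fin 3 → ℤ} {D : ℤ} {z y : ℕ} (hz : 2 ≤ z) (hD : D ≠ 0) (hG : Gd z f)
    (hF : f 0 - f 1 = f 2) {p : ℕ} (hp : p.Prime) (hpD : ¬ (p : ℤ) ∣ D) {j : Fin 3}
    (hj : p ∣ S1 z y f j) (m : ℕ) (hm : m ≠ 0) (hpm : p ∣ m) :
    ∃ κ : ℤ, ¬ (p : ℤ) ∣ κ ∧ LocM j.castSucc κ p (D * f 0) (D * f 1) ∧
      ∀ v w h g : Bool, LL j.castSucc (fun _ => κ) false p v w h g →
        LR j (decide (p ∈ sgF (D * f 0) (D * f 1) m)) v w h g := by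
  obtain ⟨hPS, hjf, hjf2⟩ := (S1_dvd_iff hp).1 hj
  have hzp := (mem_PS.1 hPS).1.1
  have hpi : Prime (p : ℤ) := Nat.prime_iff_prime_int.1 hp
  have hother : ∀ l, j ≠ l → ¬ (p : ℤ) ∣ D * f l := by
    intro l hl h
    rcases hpi.dvd_or_dvd h with h | h
    · exact hpD h
    · exact hG.2 p hp hzp j l hl ⟨hjf, h⟩
  have hodd := val_odd hp hD (hG.1 j) hpD hjf hjf2
  have hAB : D * f 0 - D * f 1 = D * f 2 := by rw [← hF]; ring
  have hmem : p ∈ m.primeFactors := Nat.mem_primeFactors.2 ⟨hp, hpm, hm⟩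
  have hsq : ∀ x : ℤ, ¬ (p : ℤ) ∣ x → jacobiSym (x * x) p = 1 := by
    intro x hx
    rw [← sq]
    exact jac_sq hp hx
  have hn : ∀ x : ℤ, ¬ (p : ℤ) ∣ x → ¬ (p : ℤ) ∣ -x := fun x hx h => hx ((dvd_neg).1 h)
  have hj012 : j = 0 ∨ j = 1 ∨ j = 2 := by
    fin_cases j <;> simp
  rcases hj012 with rfl | rfl | rfl
  · have a0 : (p : ℤ) ∣ D * f 0 := hjf.mul_left _
    have a1 : ¬ (p : ℤ) ∣ D * f 1 := hother 1 (by decide)
    have a2 : ¬ (p : ℤ) ∣ D * f 2 := hother 2 (by decide)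
    refine ⟨-(D * f 1), hn _ a1, ?_, ?_⟩
    · unfold LocM
      rw [if_pos (by rfl)]
      exact ⟨a0, a1, hsq _ (hn _ a1), Or.inl hodd⟩
    · intro v w h g hL
      have hE : decide (p ∈ sgF (D * f 0) (D * f 1) m) = sg0 p (-(D * f 1)) := by
        unfold sg0 sgF
        rw [decide_eq_decide, mem_filter, hAB]
        simp [hmem, a0, a1, a2]
      rw [hE]
      unfold LL at hL
      rw [if_pos (by rfl)] at hL
      unfold LR
      rw [if_pos rfl]
      exact hL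
  · have a1 : (p : ℤ) ∣ D * f 1 := hjf.mul_left _
    have a0 : ¬ (p : ℤ) ∣ D * f 0 := hother 0 (by decide)
    have a2 : ¬ (p : ℤ) ∣ D * f 2 := hother 2 (by decide)
    refine ⟨-(D * f 0), hn _ a0, ?_, ?_⟩
    · unfold LocM
      rw [if_neg (by decide), if_pos (by rfl)]
      exact ⟨a1, a0, hsq _ (hn _ a0), Or.inl hodd⟩
    · intro v w h g hL
      have hE : decide (p ∈ sgF (D * f 0) (D * f 1) m) = sg0 p (-(D * f 0)) := by
        unfold sg0 sgF
        rw [decide_eq_decide, mem_filter, hAB]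
        simp [hmem, a0, a1, a2]
      rw [hE]
      unfold LL at hL
      rw [if_neg (by decide), if_pos (by rfl)] at hL
      unfold LR
      rw [if_neg (by decide), if_pos rfl]
      exact hL
  · have a2 : (p : ℤ) ∣ D * f 2 := hjf.mul_left _
    have a0 : ¬ (p : ℤ) ∣ D * f 0 := hother 0 (by decide)
    have a1 : ¬ (p : ℤ) ∣ D * f 1 := hother 1 (by decide)
    refine ⟨D * f 0, a0, ?_, ?_⟩
    · unfold LocM
      rw [if_neg (by decide), if_neg (by decide), hAB]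
      exact ⟨a2, a0, hsq _ a0, Or.inl hodd⟩
    · intro v w h g hL
      have hE : decide (p ∈ sgF (D * f 0) (D * f 1) m) = sg0 p (D * f 0) := by
        unfold sg0 sgF
        rw [decide_eq_decide, mem_filter, hAB]
        simp [hmem, a0, a1, a2]
      rw [hE]
      unfold LL at hL
      rw [if_neg (by decide), if_neg (by decide), if_pos (by rfl)] at hL
      unfold LR
      rw [if_neg (by decide), if_neg (by decide)]
      exact hL

theorem self_of (h : SUBL) : SELF := by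
  intro f D z y X k B hz hD hG hF hb hX hy hk
  have hseld : SELD := Pool.Agent.W612.SE.seld_of
    (Pool.Agent.W405.SE.goodp_of Pool.Agent.W407.SE.ratp)
  have hlocmp : LOCMP := locmp_of Pool.Agent.W407.SE.ratp
  have hf0 := hG.1
  have hmem : S1 z y f ∈ Tup (Fin 3) z y := S1_mem hG.2
  obtain ⟨m, hm⟩ : ∃ m, m = ∏ j, S1 z y f j := ⟨_, rfl⟩
  rw [← hm]
  have hmd : m ∣ PP z y := by rw [hm]; exact Tup_prod_dvd hmem
  have hmsq : Squarefree m := (PP_squarefree z y).squarefree_of_dvd hmd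
  have hm0 : m ≠ 0 := hmsq.ne_zero
  have hPSof : ∀ p : ℕ, p.Prime → p ∣ m → p ∈ PS z y := fun p hp h =>
    (prime_dvd_PP hp).1 (h.trans hmd)
  have hodd2 : ∀ p : ℕ, p.Prime → p ∣ m → p ≠ 2 := by
    intro p hp h
    have h1 := (mem_PS.1 (hPSof p hp h)).1.1
    omega
  have hmodd : Odd m := by
    rw [← Nat.not_even_iff_odd, even_iff_two_dvd]
    intro h
    exact hodd2 2 Nat.prime_two h rfl
  obtain ⟨m', hm'⟩ : ∃ m', m' = ∏ p ∈ m.primeFactors.filter (fun p => ¬ p ∣ D.natAbs), p :=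
    ⟨_, rfl⟩
  obtain ⟨e, he⟩ : ∃ e, e = ∏ p ∈ m.primeFactors.filter (fun p => p ∣ D.natAbs), p := ⟨_, rfl⟩
  have hme : m' * e = m := by
    rw [hm', he, mul_comm, prod_filter_mul_prod_filter_not]
    exact Nat.prod_primeFactors_of_squarefree hmsq
  have hpm' : ∀ p : ℕ, p.Prime → (p ∣ m' ↔ p ∣ m ∧ ¬ p ∣ D.natAbs) := by
    intro p hp
    rw [hm', Prime.dvd_finsetProd_iff hp.prime]
    constructor
    · rintro ⟨q, hq, hpq⟩
      rw [mem_filter, Nat.mem_primeFactors] at hq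
      rw [(Nat.prime_dvd_prime_iff_eq hp hq.1.1).1 hpq]
      exact ⟨hq.1.2.1, hq.2⟩
    · rintro ⟨h1, h2⟩
      exact ⟨p, mem_filter.2 ⟨Nat.mem_primeFactors.2 ⟨hp, h1, hm0⟩, h2⟩, dvd_rfl⟩
  have hpe : ∀ p : ℕ, p.Prime → (p ∣ e ↔ p ∣ m ∧ p ∣ D.natAbs) := by
    intro p hp
    rw [he, Prime.dvd_finsetProd_iff hp.prime]
    constructor
    · rintro ⟨q, hq, hpq⟩
      rw [mem_filter, Nat.mem_primeFactors] at hq
      rw [(Nat.prime_dvd_prime_iff_eq hp hq.1.1).1 hpq]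
      exact ⟨hq.1.2.1, hq.2⟩
    · rintro ⟨h1, h2⟩
      exact ⟨p, mem_filter.2 ⟨Nat.mem_primeFactors.2 ⟨hp, h1, hm0⟩, h2⟩, dvd_rfl⟩
  have hm'm : m' ∣ m := Dvd.intro _ hme
  have hem : e ∣ m := Dvd.intro_left _ hme
  obtain ⟨L, hL⟩ : ∃ L, L = LF (S1 z y f) (sgF (D * f 0) (D * f 1) m) := ⟨_, rfl⟩
  rw [← hL]
  have hA : D * f 0 ≠ 0 := mul_ne_zero hD (hf0 0)
  have hB' : D * f 1 ≠ 0 := mul_ne_zero hD (hf0 1)
  have hAB' : D * f 0 - D * f 1 = D * f 2 := by rw [← hF]; ring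
  have hne : D * f 0 ≠ D * f 1 := by
    intro h
    exact mul_ne_zero hD (hf0 2) (by rw [← hAB', h, sub_self])
  have hxc : ∀ p, XC (L p) := fun p => by rw [hL]; exact xcLF _ _ p
  have hd := hseld m' L (D * f 0) (D * f 1) hA hB' hne (hmodd.of_dvd_nat hm'm)
    (hmsq.squarefree_of_dvd hm'm) (fun p _ _ => hxc p)
    (fun p _ hpd x x' hx' hcurve e1 e2 he1 he2 hsq1 hsq2 => by
      have hpp : p.Prime := Fact.out
      rw [hL]
      intro j hj
      obtain ⟨hpm, hpD⟩ := (hpm' p hpp).1 hpd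
      obtain ⟨κ, k1, k2, k3⟩ := loc hz hD hG hF hpp (fun h => hpD (Int.natCast_dvd.1 h)) hj m hm0
        hpm
      exact k3 _ _ _ _ (hlocmp j.castSucc κ p (D * f 0) (D * f 1)
        (by fin_cases j <;> decide) (hodd2 p hpp hpm) k1 hA hB' hne k2 x x' hx' hcurve e1 e2
        he1 he2 hsq1 hsq2))
  refine ⟨hd.1, hd.2.trans ?_⟩
  have hsubl := h m' e L (by rw [hme]; exact hmodd) (by rw [hme]; exact hmsq)
    (fun p _ _ => hxc p) (fun p hp hpd => by
      obtain ⟨h1, -⟩ := (hpe p hp).1 hpd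
      rw [hm, Prime.dvd_finsetProd_iff hp.prime] at h1
      obtain ⟨j, -, hj⟩ := h1
      refine ⟨j, fun h' g' hphi => ?_⟩
      rw [hL]
      intro j' hj'
      have hjj : j' = j := by
        by_contra hcon
        have a1 := (S1_dvd_iff hp).1 hj
        have a2 := (S1_dvd_iff hp).1 hj'
        exact hG.2 p hp (mem_PS.1 a1.1).1.1 j' j hcon ⟨a2.2.1, a1.2.1⟩
      rw [hjj]
      exact phiLR _ _ _ _ hphi)
  rw [hme] at hsubl
  have hec : e.primeFactors.card ≤ D.natAbs.primeFactors.card := by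
    apply card_le_card
    intro p hp
    rw [Nat.mem_primeFactors] at hp ⊢
    exact ⟨hp.1, ((hpe p hp.1).1 hp.2.1).2, Int.natAbs_ne_zero.2 hD⟩
  have hbad := bad (m' := m') hz hD hf0 hb hk hy (fun q hq h1 h2 => by
    rw [← hm] at h1
    exact (hpm' q hq).2 ⟨h1, h2⟩)
  rw [← hAB'] at hbad
  have h8 : 8 ^ D.natAbs.primeFactors.card
      = 4 ^ D.natAbs.primeFactors.card * 2 ^ D.natAbs.primeFactors.card := by
    rw [← mul_pow]
    norm_num
  calc _ ≤ 4 ^ ((z + 2) + (Fintype.card (Fin 3) * (B * k))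
        + ∑ j, (S2 z y f j).primeFactors.card + D.natAbs.primeFactors.card)
        * (2 ^ D.natAbs.primeFactors.card * NL m L) := by
        refine Nat.mul_le_mul (Nat.pow_le_pow_right (by norm_num) (by omega)) ?_
        exact hsubl.trans (Nat.mul_le_mul_right _ (Nat.pow_le_pow_right (by norm_num) hec))
    _ = _ := by
        rw [h8, pow_add, pow_add, pow_add]
        have e2 : ((4 ^ B) ^ Fintype.card (Fin 3)) ^ k = 4 ^ (Fintype.card (Fin 3) * (B * k)) := by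
          rw [← pow_mul, ← pow_mul]
          congr 1
          ring
        rw [e2]
        ring

end Pool.Agent.W293.FK.Self
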